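import Pool.Agent.KEQ.One
import Pool.Agent.KEQ.Real

/-!
# The classes of `K_0` with support of dimension at most one, for all dimensions

The geometric notions are those of Mathlib (`Pool/Agent/KEQ/Real.lean`). The hypothesis
`CurveTheory SPVs K0 F1` collects the published facts that are used (`Pool/Agent/KEQ/One.lean`).
-/

set_option autoImplicit false

namespace Pool.Agent.Results.MP_e37830_ag.CurveClasses

open Pool.Agent.KEQ

/-- Let `X`, `Y` be smooth projective complex varieties of any dimension with birational morphisms
`f : Z ⟶ X`, `g : Z ⟶ Y` that contract the same prime divisors (for instance K-equivalent varieties).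
Then `g_* f^*` is an isomorphism from `F_1 K_0(X)` to `F_1 K_0(Y)`, and it does not change the pull-back
to `Z`. -/
theorem result (T : CurveTheory SPVs K0 F1) {X Y Z : SPV} (f : Z ⟶ X) (g : Z ⟶ Y) (hf : Bir f)
    (hg : Bir g) (h : SameExc SPVs f g ∨ Crep f g) : ∃ e : F1 X ≃+ F1 Y, ∀ x : F1 X,
      (e x : K0 Y) = T.push g (T.pull f x) ∧ T.pull g (e x : K0 Y) = T.pull f x :=
  one_iso T f g hf hg (h.elim id fun h => T.same_exc f g hf hg h)

end Pool.Agent.Results.MP_e37830_ag.CurveClasses
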