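import Pool.Agent.KE5.Real
import Pool.Agent.KE5.Main
import Pool.Agent.KE5.MOT
import Pool.Agent.KE5.MEA
import Pool.Agent.KE5.FGU

/-!
# K-equivalent smooth projective varieties of dimension at most four have isomorphic groups `K_0`

The geometric notions are those of Mathlib (`Pool/Agent/KEQ/Real.lean`, `Pool/Agent/KE5/Real.lean`). The hypothesis
`SmallTheory SPVs K0 Fil` collects the published theorems that are used (`Pool/Agent/KE5/Theory.lean`): no weak
factorization, no algebraic equivalence, no theorem on zero-cycles.
-/

set_option autoImplicit false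

namespace Pool.Agent.Results.MP_e37830_ag.DimensionFour

open Pool.Agent.KEQ Pool.Agent.KE5

/-- K-equivalent smooth projective complex varieties `X`, `Y` of dimension at most four have isomorphic
groups `K_0(X)`, `K_0(Y)`. -/
theorem result (T : SmallTheory SPVs K0 Fil) (X Y : SPV) (h : KEq SPVs X Y) (hd : X.dim ≤ 4) :
    Nonempty (K0 X ≃+ K0 Y) :=
  small_main (t_FGU t_MOT t_MEA) T X Y h hd

end Pool.Agent.Results.MP_e37830_ag.DimensionFour
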