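import Pool.Agent.KE5.Real
import Pool.Agent.KE5.Main
import Pool.Agent.KE5.MOT
import Pool.Agent.KE5.MEA
import Pool.Agent.KE5.FGU

/-!
# K-equivalent smooth projective varieties of dimension at most six and their groups `K_0`

The geometric notions are those of Mathlib (`Pool/Agent/KEQ/Real.lean`, `Pool/Agent/KE5/Real.lean`). The hypothesis
`FullTheory SPVs K0 Fil` collects the published theorems that are used (`Pool/Agent/KE5/Theory.lean`).
-/

set_option autoImplicit false

namespace Pool.Agent.Results.MP_e37830_ag.DimensionSix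

open Pool.Agent.KEQ Pool.Agent.KE5

/-- K-equivalent smooth projective complex varieties `X`, `Y` have isomorphic groups `K_0(X)`, `K_0(Y)` if their
dimension is at most five, or if it is six and `h^(p,q)(X) ≠ 0` for some `p ≠ q`; the isomorphism can be chosen so
that it respects the subgroups of the algebraically trivial classes. -/
theorem result (T : FullTheory SPVs K0 Fil) (X Y : SPV) (h : KEq SPVs X Y)
    (hd : X.dim ≤ 5 ∨ (X.dim = 6 ∧ T.h X ≠ 0)) :
    ∃ e : K0 X ≃+ K0 Y, ∀ x, x ∈ T.sub .alg X ↔ e x ∈ T.sub .alg Y :=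
  full_main (t_FGU t_MOT t_MEA) (t_TOR t_MOT t_MEA) t_MOT T X Y h hd

end Pool.Agent.Results.MP_e37830_ag.DimensionSix
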